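import Pool.Agent.N783.CF.WR

/-!
# A cycle of length `2 g` on the roots of one conjugate polynomial
-/

set_option autoImplicit false
set_option linter.all false

open Polynomial NumberField
open scoped Classical

namespace Pool.Agent.N540.WR

open Pool.Agent.N783.CF
open Pool.Agent.N783.PF (Bd Ht dsc fF SqF IsGen Fam GoodS GoodF LBad Cg sp rd)

/-- a residue field with `q` elements -/
theorem exists_nat {R : Type} [CommRing R] (P : Ideal R) [hP : P.IsPrime] (q : ℕ) (hq : q.Prime)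
    (hqP : (q : R) ∈ P) (α : R) (h : α ^ q - α ∈ P) : ∃ i : ℕ, α - (i : R) ∈ P := by
  haveI : Fact q.Prime := ⟨hq⟩
  have h0 : ((q : ℕ) : R ⧸ P) = 0 := by
    rw [← map_natCast (Ideal.Quotient.mk P) q]
    exact Ideal.Quotient.eq_zero_iff_mem.2 hqP
  haveI : CharP (R ⧸ P) q := (CharP.charP_iff_prime_eq_zero hq).2 h0
  let c : ZMod q →+* R ⧸ P := ZMod.castHom dvd_rfl _
  have hmon : (X ^ q - X : (ZMod q)[X]).Monic := by
    apply monic_X_pow_sub
    rw [degree_X]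
    exact_mod_cast hq.one_lt
  have hroots : (X ^ q - X : (ZMod q)[X]).roots = Finset.univ.val := by
    have := FiniteField.roots_X_pow_card_sub_X (ZMod q)
    rwa [ZMod.card] at this
  have hdeg : (X ^ q - X : (ZMod q)[X]).natDegree = q :=
    FiniteField.X_pow_card_sub_X_natDegree_eq _ hq.one_lt
  have hprod := Polynomial.prod_multiset_X_sub_C_of_monic_of_roots_card_eq hmon (by
    rw [hroots, hdeg]
    simp [ZMod.card])
  rw [hroots] at hprod
  have h1 := congrArg (fun p => eval₂ c (Ideal.Quotient.mk P α) p) hprod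
  simp only [eval₂_sub, eval₂_X_pow, eval₂_X] at h1
  rw [show (Multiset.map (fun a : ZMod q => (X - C a : (ZMod q)[X])) Finset.univ.val).prod =
    ∏ a : ZMod q, (X - C a) from rfl, eval₂_finset_prod] at h1
  have h2 : (Ideal.Quotient.mk P α) ^ q - Ideal.Quotient.mk P α = 0 := by
    rw [← map_pow, ← map_sub]
    exact Ideal.Quotient.eq_zero_iff_mem.2 h
  rw [h2, Finset.prod_eq_zero_iff] at h1
  obtain ⟨a, -, ha⟩ := h1
  rw [eval₂_sub, eval₂_X, eval₂_C] at ha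
  refine ⟨a.val, ?_⟩
  rw [← Ideal.Quotient.eq_zero_iff_mem, map_sub, map_natCast]
  rw [← ha]
  congr 1
  rw [← map_natCast c a.val, ZMod.natCast_zmod_val]

section
variable {K : Type} [Field K] {M : IntermediateField K (AlgebraicClosure K)}

/-- the map on integers -/
noncomputable def io (φ : M →ₐ[K] AlgebraicClosure K) :
    𝓞 M →+* integralClosure ℤ (AlgebraicClosure K) :=
  ((φ : M →+* AlgebraicClosure K).comp (algebraMap (𝓞 M) M)).codRestrict
    (integralClosure ℤ (AlgebraicClosure K)) (fun a => by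
      have h : IsIntegral ℤ ((a : 𝓞 M) : M) := a.2
      exact h.map ((φ : M →+* AlgebraicClosure K).toIntAlgHom))

theorem io_coe (φ : M →ₐ[K] AlgebraicClosure K) (a : 𝓞 M) :
    ((io φ a : integralClosure ℤ (AlgebraicClosure K)) : AlgebraicClosure K) = φ (a : M) := rfl

theorem io_inj (φ : M →ₐ[K] AlgebraicClosure K) : Function.Injective (io φ) := by
  intro a b h
  have h1 := congrArg (fun y : integralClosure ℤ (AlgebraicClosure K) => (y : AlgebraicClosure K)) h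
  simp only [io_coe] at h1
  exact NumberField.RingOfIntegers.ext (φ.toRingHom.injective h1)

/-- lying over -/
theorem lies_over (φ : M →ₐ[K] AlgebraicClosure K) (𝔮 : Ideal (𝓞 M)) [𝔮.IsPrime] :
    ∃ 𝔔 : Ideal (integralClosure ℤ (AlgebraicClosure K)), 𝔔.IsPrime ∧ 𝔔.comap (io φ) = 𝔮 := by
  letI : Algebra (𝓞 M) (integralClosure ℤ (AlgebraicClosure K)) := (io φ).toAlgebra
  haveI : IsScalarTower ℤ (𝓞 M) (integralClosure ℤ (AlgebraicClosure K)) :=
    IsScalarTower.of_algebraMap_eq' (RingHom.ext_int _ _)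
  haveI : Algebra.IsIntegral ℤ (integralClosure ℤ (AlgebraicClosure K)) := inferInstance
  haveI : Algebra.IsIntegral (𝓞 M) (integralClosure ℤ (AlgebraicClosure K)) :=
    Algebra.IsIntegral.tower_top ℤ
  obtain ⟨Q, h1, h2⟩ := Ideal.exists_ideal_over_prime_of_isIntegral_of_isDomain
    (S := integralClosure ℤ (AlgebraicClosure K)) 𝔮 (by
      rw [(RingHom.injective_iff_ker_eq_bot (algebraMap (𝓞 M)
        (integralClosure ℤ (AlgebraicClosure K)))).1 (io_inj φ)]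
      exact bot_le)
  exact ⟨Q, h1, h2⟩

theorem zr_int (φ : M →ₐ[K] AlgebraicClosure K) (f : (𝓞 M)[X]) (hf : f.Monic)
    (z : AlgebraicClosure K) (hz : z ∈ Zr M φ f) :
    z ∈ integralClosure ℤ (AlgebraicClosure K) := by
  have h1 : IsIntegral (integralClosure ℤ (AlgebraicClosure K)) z := by
    refine ⟨f.map (io φ), hf.map _, ?_⟩
    rw [eval₂_map]
    have h2 : (f.map ((φ : M →+* AlgebraicClosure K).comp (algebraMap (𝓞 M) M))).eval z = 0 := hz
    rw [eval_map] at h2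
    exact h2
  exact isIntegral_trans (R := ℤ) (A := integralClosure ℤ (AlgebraicClosure K)) z h1

theorem zr_fin (φ : M →ₐ[K] AlgebraicClosure K) (f : (𝓞 M)[X]) (hf : f.Monic) :
    (Zr M φ f).Finite := by
  have h := (f.map ((φ : M →+* AlgebraicClosure K).comp (algebraMap (𝓞 M) M))).roots.toFinset.finite_toSet
  refine h.subset fun z hz => ?_
  rw [Finset.mem_coe, Multiset.mem_toFinset, mem_roots (hf.map _).ne_zero]
  exact hz

end

/-- the conditions for one embedding -/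
theorem core (hFR : S_FR1) (hA : S_ALP) (hFB : S_FBR) (g : ℕ) (K : Type) [Field K] [NumberField K]
    (M : IntermediateField K (AlgebraicClosure K)) [NumberField M] (hg : 1 ≤ g) :
    ∃ W : ℕ, ∀ f : (𝓞 M)[X], f.Monic → f.natDegree = 2 * g + 1 → TwoS g W f →
  ∀ φ₀ : M →ₐ[K] AlgebraicClosure K, (Zr M φ₀ f).ncard = 2 * g + 1 ∧
    ∃ s : AlgebraicClosure K ≃ₐ[K] AlgebraicClosure K,
    (∀ φ : M →ₐ[K] AlgebraicClosure K, s.toAlgHom.comp φ = φ) ∧
    (∀ φ : M →ₐ[K] AlgebraicClosure K, φ ≠ φ₀ → ∀ z ∈ Zr M φ f, s z = z) ∧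
    ∃ z₀ ∈ Zr M φ₀ f, s z₀ = z₀ ∧ ∀ z ∈ Zr M φ₀ f, ∀ z' ∈ Zr M φ₀ f, z ≠ z₀ → z' ≠ z₀ →
      ∃ k : ℕ, z' = (s ^ k) z := by
  obtain ⟨α, W, hW⟩ := hA K M
  refine ⟨W, fun f hf hdeg ⟨q, 𝔮, h, hq, hqW, hspl, h𝔮, hq𝔮, hh, hhdeg, hhirr, hcg, hirr⟩ φ₀ => ?_⟩
  haveI := h𝔮
  obtain ⟨𝔔, h𝔔, hcomap⟩ := lies_over φ₀ 𝔮
  haveI := h𝔔
  haveI : FiniteDimensional K M := inferInstance
  haveI : Finite (M →ₐ[K] AlgebraicClosure K) := inferInstance
  have hq𝔔 : (q : integralClosure ℤ (AlgebraicClosure K)) ∈ 𝔔 := by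
    rw [← hcomap] at hq𝔮
    have := Ideal.mem_comap.1 hq𝔮
    rwa [map_natCast] at this
  have hp : ∀ φ : M →ₐ[K] AlgebraicClosure K, (𝔔.comap (io φ)).IsPrime := fun φ =>
    Ideal.IsPrime.comap _
  have hqp : ∀ φ : M →ₐ[K] AlgebraicClosure K, (q : 𝓞 M) ∈ 𝔔.comap (io φ) := fun φ => by
    rw [Ideal.mem_comap, map_natCast]
    exact hq𝔔
  -- the finite set
  have hTfin : {t : integralClosure ℤ (AlgebraicClosure K) |
      (∃ φ : M →ₐ[K] AlgebraicClosure K, (t : AlgebraicClosure K) ∈ Zr M φ f) ∨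
      ∃ φ : M →ₐ[K] AlgebraicClosure K, t = io φ α}.Finite := by
    apply Set.Finite.union
    · have h1 : (⋃ φ : M →ₐ[K] AlgebraicClosure K, Zr M φ f).Finite :=
        Set.finite_iUnion fun φ => zr_fin φ f hf
      have h2 := h1.preimage (f := fun t : integralClosure ℤ (AlgebraicClosure K) =>
        (t : AlgebraicClosure K)) (Subtype.val_injective.injOn)
      refine h2.subset ?_
      rintro t ⟨φ, ht⟩
      exact Set.mem_iUnion.2 ⟨φ, ht⟩
    · have h1 := Set.finite_range (fun φ : M →ₐ[K] AlgebraicClosure K => io φ α)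
      refine h1.subset ?_
      rintro t ⟨φ, ht⟩
      exact ⟨φ, ht.symm⟩
  obtain ⟨s, hs⟩ := hFR K hTfin.toFinset 𝔔 q hq h𝔔 hq𝔔 (by
    intro a
    have h1 : (algebraMap (𝓞 K) (𝓞 M) a) ^ q - algebraMap (𝓞 K) (𝓞 M) a ∈ 𝔔.comap (io φ₀) :=
      hspl _ (hp φ₀) (hqp φ₀) _
    refine ⟨io φ₀ ((algebraMap (𝓞 K) (𝓞 M) a) ^ q - algebraMap (𝓞 K) (𝓞 M) a),
      Ideal.mem_comap.1 h1, ?_⟩
    rw [io_coe]
    have h2 : (((algebraMap (𝓞 K) (𝓞 M) a) ^ q - algebraMap (𝓞 K) (𝓞 M) a : 𝓞 M) : M) =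
        algebraMap K M ((a ^ q - a : 𝓞 K) : K) := by
      rw [← map_pow, ← map_sub]
      rfl
    rw [h2]
    exact φ₀.commutes _)
  have hsT : ∀ t : integralClosure ℤ (AlgebraicClosure K),
      ((∃ φ : M →ₐ[K] AlgebraicClosure K, (t : AlgebraicClosure K) ∈ Zr M φ f) ∨
      ∃ φ : M →ₐ[K] AlgebraicClosure K, t = io φ α) → ∃ y ∈ 𝔔,
        (y : AlgebraicClosure K) = s (t : AlgebraicClosure K) - (t : AlgebraicClosure K) ^ q :=
    fun t ht => hs t (hTfin.mem_toFinset.2 ht)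
  -- `s` fixes the embeddings
  have hfix : ∀ φ : M →ₐ[K] AlgebraicClosure K, s.toAlgHom.comp φ = φ := by
    intro φ
    by_contra hne
    obtain ⟨y, hy, hy2⟩ := hsT (io φ α) (Or.inr ⟨φ, rfl⟩)
    have h1 : α ^ q - α ∈ 𝔔.comap (io φ) := hspl _ (hp φ) (hqp φ) _
    have h2 := Ideal.mem_comap.1 h1
    refine hW q 𝔔 hq hqW h𝔔 hq𝔔 (s.toAlgHom.comp φ) φ hne (y + io φ (α ^ q - α)) ?_
      (𝔔.add_mem hy h2)
    have h3 : ((y + io φ (α ^ q - α) : integralClosure ℤ (AlgebraicClosure K)) :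
        AlgebraicClosure K) = (y : AlgebraicClosure K) + φ (α : M) ^ q - φ (α : M) := by
      rw [map_sub, map_pow]
      show (y : AlgebraicClosure K) + (φ (α : M) ^ q - φ (α : M)) = _
      ring
    rw [h3, hy2, io_coe]
    show s (φ (α : M)) - φ (α : M) ^ q + φ (α : M) ^ q - φ (α : M) = s (φ (α : M)) - φ (α : M)
    ring
  -- different primes
  have hdiff : ∀ φ : M →ₐ[K] AlgebraicClosure K, φ ≠ φ₀ → 𝔔.comap (io φ) ≠ 𝔮 := by
    intro φ hne heq
    obtain ⟨i, hi⟩ := exists_nat 𝔮 q hq hq𝔮 α (hspl 𝔮 h𝔮 hq𝔮 α)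
    have h1 : io φ (α - (i : 𝓞 M)) ∈ 𝔔 := by
      rw [← heq] at hi
      exact Ideal.mem_comap.1 hi
    have h2 : io φ₀ (α - (i : 𝓞 M)) ∈ 𝔔 := by
      rw [← hcomap] at hi
      exact Ideal.mem_comap.1 hi
    refine hW q 𝔔 hq hqW h𝔔 hq𝔔 φ φ₀ hne (io φ (α - (i : 𝓞 M)) - io φ₀ (α - (i : 𝓞 M))) ?_
      (𝔔.sub_mem h1 h2)
    rw [map_sub, map_sub, map_natCast, map_natCast, sub_sub_sub_cancel_right]
    rfl
  have hroot : ∀ φ : M →ₐ[K] AlgebraicClosure K, ∀ z ∈ Zr M φ f, ∃ y ∈ 𝔔,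
      (y : AlgebraicClosure K) = s z - z ^ q := by
    intro φ z hz
    exact hsT ⟨z, zr_int φ f hf z hz⟩ (Or.inl ⟨φ, hz⟩)
  have hmem : ∀ φ : M →ₐ[K] AlgebraicClosure K, ∀ a : 𝓞 M, a ∈ 𝔔.comap (io φ) ↔
      ∃ y ∈ 𝔔, (y : AlgebraicClosure K) = φ (a : M) := by
    intro φ a
    rw [Ideal.mem_comap]
    constructor
    · intro h1
      exact ⟨_, h1, rfl⟩
    · rintro ⟨y, hy, hy2⟩
      have : y = io φ a := Subtype.ext hy2
      rwa [← this]
  have hFBR := fun φ : M →ₐ[K] AlgebraicClosure K => hFB g K M f h q 𝔔 (𝔔.comap (io φ)) φ s hg hq hspl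
    h𝔔 hq𝔔 (hp φ) (hqp φ) (hmem φ) hf hdeg (hfix φ) (hroot φ)
  obtain ⟨hc, z₀, hz₀, hz₁, hz₂⟩ := (hFBR φ₀).2 hh hhdeg (by rw [hcomap]; exact hhirr)
    (by rw [hcomap]; exact hcg)
  refine ⟨hc, s ^ (2 * g + 1), ?_, ?_, z₀, hz₀, hz₁, hz₂⟩
  · intro φ
    have h1 : ∀ x : M, s (φ x) = φ x := fun x => DFunLike.congr_fun (hfix φ) x
    have h2 : ∀ k : ℕ, ∀ x : M, (s ^ k) (φ x) = φ x := by
      intro k
      induction k with
      | zero => intro x; rfl
      | succ k ih =>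
        intro x
        rw [pow_succ, AlgEquiv.mul_apply, h1, ih]
    refine AlgHom.ext fun x => ?_
    show (s ^ (2 * g + 1)) (φ x) = φ x
    exact h2 (2 * g + 1) x
  · intro φ hne z hz
    exact ((hFBR φ).1 (hirr _ (hp φ) (hqp φ) (hdiff φ hne))).2 z hz

/-- Subtask WR/FRB. -/
theorem t_FRB : S_FR1 → S_ALP → S_FBR → S_FRB := by
  intro hFR hA hFB g K _ _ M _ hg
  obtain ⟨W, hW⟩ := core hFR hA hFB g K M hg
  exact ⟨W, fun f hf hd h2 => ⟨fun φ => (hW f hf hd h2 φ).1, fun φ => (hW f hf hd h2 φ).2⟩⟩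

end Pool.Agent.N540.WR
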